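import Pool.Agent.W140.N4.Poly

/-!
Polynomial certificates of the far region for `N = 4`.
-/

set_option autoImplicit false

namespace Pool.Agent.W140.N4

def opz : List ℚ := [1, 0, 1]
def omy2 : List ℚ := [1, -2, 1]
def Ay : List ℚ := [63, -30, 63]
def yL : List ℚ := [0, 1]
def Q1 : List ℚ := [63, 0, 186, 0, 63]
def U3 : List ℚ := [1, 0, 9/4, 0, 9/64, 0, 1/256, 0, 9/16384, 0, 9/65536, 0, 9/100000]
def L3 : List ℚ := [1, 0, 9/4, 0, 9/64, 0, 1/256, 0, 9/16384, 0, 9/65536, 0, 49/1048576]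
def U1 : List ℚ := [1, 0, 1/4, 0, 1/64, 0, 1/256, 0, 25/16384, 0, 49/65536, 0, 145/100000]
def L1 : List ℚ := [1, 0, 1/4, 0, 1/64, 0, 1/256, 0, 25/16384, 0, 49/65536, 0, 441/1048576]
def Wy : List ℚ := addL U3 (scL (-1) (mulL omy2 L1))
def Vy : List ℚ := Wy.tail
def Dl : List ℚ := addL (mulL (scL 63 opz) L3) (scL (-1) (mulL Q1 U1))
def cc : ℚ := 4999/5000 * (3 * (17503290000/12230590464))
def R1 (al be : ℚ) : List ℚ := addL (scL (32*cc) (mulL opz (mulL opz opz)))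
  (scL (-1) (mulL U3 (addL (scL al (mulL Ay Vy)) (scL be U3))))
def Mp (c0 : ℚ) : List ℚ := addL (scL (2*c0) opz) (scL (-3) omy2)
def Br (al be c0 : ℚ) : List ℚ := addL (addL (scL (2*al) (mulL opz (mulL Ay Wy)))
  (scL (2*be) (mulL yL (mulL opz U3)))) (scL (-2) (mulL (Mp c0) Dl))
def R2 (al be c0 : ℚ) : List ℚ :=
  addL (scL (64*cc) (mulL yL (mulL (mulL opz opz) (mulL opz opz)))) (scL (-1) (mulL U3 (Br al be c0)))

theorem cW : Wy = 0 :: Vy := by decide +kernel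
theorem cV : walk Vy 0 [1/2, 1] = true := by decide +kernel
theorem cD : walk Dl 0 [1] = true := by decide +kernel
theorem cb1 : walk (R1 1 0) 0 [365/1000, 73/100] = true := by decide +kernel
theorem cb2 : walk (R2 1 0 (723/10000)) (73/100) [1] = true := by decide +kernel
theorem cb3 : walk (Mp (723/10000)) (73/100) [1] = true := by decide +kernel
theorem cb4 : walk (Br 1 0 (723/10000)) (73/100) [1] = true := by decide +kernel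
theorem cc1 : walk (R1 (71/100) (2784/100)) 0 [39/100, 59/100, 79/100] = true := by decide +kernel
theorem cc2 : walk (R2 (71/100) (2784/100) (412/10000)) (79/100) [89/100, 1] = true := by decide +kernel
theorem cc3 : walk (Mp (412/10000)) (79/100) [1] = true := by decide +kernel
theorem cc4 : walk (Br (71/100) (2784/100) (412/10000)) (79/100) [1] = true := by decide +kernel

theorem evU3 (y : ℝ) : ev U3 y = 1 + 9 / 4 * y ^ 2 + 9 / 64 * (y ^ 2) ^ 2 + 1 / 256 * (y ^ 2) ^ 3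
    + 9 / 16384 * (y ^ 2) ^ 4 + 9 / 65536 * (y ^ 2) ^ 5 + 9 / 100000 * (y ^ 2) ^ 6 := by
  simp only [U3, ev_cons, ev_nil]; push_cast; ring
theorem evL3 (y : ℝ) : ev L3 y = 1 + 9 / 4 * y ^ 2 + 9 / 64 * (y ^ 2) ^ 2 + 1 / 256 * (y ^ 2) ^ 3
    + 9 / 16384 * (y ^ 2) ^ 4 + 9 / 65536 * (y ^ 2) ^ 5 + 49 / 1048576 * (y ^ 2) ^ 6 := by
  simp only [L3, ev_cons, ev_nil]; push_cast; ring
theorem evU1 (y : ℝ) : ev U1 y = 1 + 1 / 4 * y ^ 2 + 1 / 64 * (y ^ 2) ^ 2 + 1 / 256 * (y ^ 2) ^ 3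
    + 25 / 16384 * (y ^ 2) ^ 4 + 49 / 65536 * (y ^ 2) ^ 5 + 145 / 100000 * (y ^ 2) ^ 6 := by
  simp only [U1, ev_cons, ev_nil]; push_cast; ring
theorem evL1 (y : ℝ) : ev L1 y = 1 + 1 / 4 * y ^ 2 + 1 / 64 * (y ^ 2) ^ 2 + 1 / 256 * (y ^ 2) ^ 3
    + 25 / 16384 * (y ^ 2) ^ 4 + 49 / 65536 * (y ^ 2) ^ 5 + 441 / 1048576 * (y ^ 2) ^ 6 := by
  simp only [L1, ev_cons, ev_nil]; push_cast; ring

theorem ev_opz (y : ℝ) : ev opz y = 1 + y ^ 2 := by simp [opz]; ring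
theorem ev_omy2 (y : ℝ) : ev omy2 y = (1 - y) ^ 2 := by simp [omy2]; ring
theorem ev_Ay (y : ℝ) : ev Ay y = 63 - 30 * y + 63 * y ^ 2 := by simp [Ay]; ring
theorem ev_yL (y : ℝ) : ev yL y = y := by simp [yL]
theorem ev_Q1 (y : ℝ) : ev Q1 y = 63 + 186 * y ^ 2 + 63 * (y ^ 2) ^ 2 := by simp [Q1]; ring
theorem ev_Wy (y : ℝ) : ev Wy y = ev U3 y - (1 - y) ^ 2 * ev L1 y := by
  rw [Wy, ev_addL, ev_scL, ev_mulL, ev_omy2]; push_cast; ring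
theorem ev_WV (y : ℝ) : ev Wy y = y * ev Vy y := by
  rw [cW, ev_cons]; simp
theorem ev_Dl (y : ℝ) : ev Dl y = 63 * (1 + y ^ 2) * ev L3 y -
    (63 + 186 * y ^ 2 + 63 * (y ^ 2) ^ 2) * ev U1 y := by
  rw [Dl, ev_addL, ev_scL, ev_mulL, ev_mulL, ev_scL, ev_opz, ev_Q1]; push_cast; ring
theorem ev_R1 (al be : ℚ) (y : ℝ) : ev (R1 al be) y = 32 * cc * (1 + y ^ 2) ^ 3 -
    ev U3 y * (al * ((63 - 30 * y + 63 * y ^ 2) * ev Vy y) + be * ev U3 y) := by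
  simp only [R1, ev_addL, ev_scL, ev_mulL, ev_opz, ev_Ay]; push_cast; ring
theorem ev_Mp (c0 : ℚ) (y : ℝ) : ev (Mp c0) y = 2 * c0 * (1 + y ^ 2) - 3 * (1 - y) ^ 2 := by
  simp only [Mp, ev_addL, ev_scL, ev_opz, ev_omy2]; push_cast; ring
theorem ev_Br (al be c0 : ℚ) (y : ℝ) : ev (Br al be c0) y =
    2 * al * ((1 + y ^ 2) * ((63 - 30 * y + 63 * y ^ 2) * ev Wy y))
      + 2 * be * (y * ((1 + y ^ 2) * ev U3 y)) - 2 * (ev (Mp c0) y * ev Dl y) := by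
  simp only [Br, ev_addL, ev_scL, ev_mulL, ev_opz, ev_Ay, ev_yL]; push_cast; ring
theorem ev_R2 (al be c0 : ℚ) (y : ℝ) : ev (R2 al be c0) y =
    64 * cc * (y * (1 + y ^ 2) ^ 4) - ev U3 y * ev (Br al be c0) y := by
  simp only [R2, ev_addL, ev_scL, ev_mulL, ev_opz, ev_yL]; push_cast; ring

section
variable {y S3 S1 : ℝ} (hy0 : 0 ≤ y) (hy1 : y ≤ 1) (b1 : ev L3 y ≤ S3) (b2 : S3 ≤ ev U3 y)
  (b3 : ev L1 y ≤ S1) (b4 : S1 ≤ ev U1 y)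
include hy0 hy1 b1 b2 b3 b4

theorem S3_pos : 0 < S3 := by
  refine lt_of_lt_of_le ?_ b1
  rw [evL3]; positivity

theorem Dpos : ev Dl y ≤ 63 * (1 + y ^ 2) * S3 - (63 + 186 * y ^ 2 + 63 * (y ^ 2) ^ 2) * S1 ∧
    0 ≤ ev Dl y := by
  refine ⟨?_, ?_⟩
  · rw [ev_Dl]
    have h1 : 63 * (1 + y ^ 2) * ev L3 y ≤ 63 * (1 + y ^ 2) * S3 :=
      mul_le_mul_of_nonneg_left b1 (by positivity)
    have h2 : (63 + 186 * y ^ 2 + 63 * (y ^ 2) ^ 2) * S1 ≤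
        (63 + 186 * y ^ 2 + 63 * (y ^ 2) ^ 2) * ev U1 y :=
      mul_le_mul_of_nonneg_left b4 (by positivity)
    linarith
  · exact walk_pos [] 0 1 cD y (by push_cast; exact hy0) (by push_cast; exact hy1)

theorem Wle : S3 - (1 - y) ^ 2 * S1 ≤ ev Wy y ∧ 0 ≤ ev Wy y := by
  constructor
  · rw [ev_Wy]
    have := mul_le_mul_of_nonneg_left b3 (sq_nonneg (1 - y))
    linarith
  · rw [ev_WV]
    exact mul_nonneg hy0 (walk_pos [1/2] 0 1 cV y (by push_cast; exact hy0) (by push_cast; exact hy1))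

theorem region1 (al be : ℚ) (hal : 0 ≤ al) (hbe : 0 ≤ be) (hR : 0 ≤ ev (R1 al be) y) :
    S3 * (al * (63 - 30 * y + 63 * y ^ 2) * (S3 - (1 - y) ^ 2 * S1) + be * y * S3) ≤
      32 * cc * y * (1 + y ^ 2) ^ 3 := by
  have hS := S3_pos hy0 hy1 b1 b2 b3 b4
  obtain ⟨w1, w2⟩ := Wle hy0 hy1 b1 b2 b3 b4
  have hA : 0 ≤ 63 - 30 * y + 63 * y ^ 2 := by nlinarith
  have hal' : (0 : ℝ) ≤ al := by exact_mod_cast hal
  have hbe' : (0 : ℝ) ≤ be := by exact_mod_cast hbe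
  have hU : 0 ≤ ev U3 y := hS.le.trans b2
  have h1 : al * (63 - 30 * y + 63 * y ^ 2) * (S3 - (1 - y) ^ 2 * S1) + be * y * S3 ≤
      al * (63 - 30 * y + 63 * y ^ 2) * ev Wy y + be * y * ev U3 y :=
    add_le_add (mul_le_mul_of_nonneg_left w1 (mul_nonneg hal' hA))
      (mul_le_mul_of_nonneg_left b2 (mul_nonneg hbe' hy0))
  have h2 : 0 ≤ al * (63 - 30 * y + 63 * y ^ 2) * ev Wy y + be * y * ev U3 y :=
    add_nonneg (mul_nonneg (mul_nonneg hal' hA) w2) (mul_nonneg (mul_nonneg hbe' hy0) hU)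
  have h3 := (mul_le_mul_of_nonneg_left h1 hS.le).trans (mul_le_mul_of_nonneg_right b2 h2)
  refine h3.trans ?_
  rw [ev_R1] at hR
  have h4 := mul_nonneg hy0 hR
  have e := ev_WV y
  rw [e]
  nlinarith

theorem region2 (al be c0 : ℚ) (hal : 0 ≤ al) (hbe : 0 ≤ be) (hR : 0 ≤ ev (R2 al be c0) y)
    (hB : 0 ≤ ev (Br al be c0) y) (hM : 0 ≤ ev (Mp c0) y) (m : ℝ)
    (hm : m * (2 * (1 + y ^ 2)) = ev (Mp c0) y) :
    S3 * (al * (63 - 30 * y + 63 * y ^ 2) * (S3 - (1 - y) ^ 2 * S1) + be * y * S3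
      - 2 * m * (63 * (1 + y ^ 2) * S3 - (63 + 186 * y ^ 2 + 63 * (y ^ 2) ^ 2) * S1)) ≤
      32 * cc * y * (1 + y ^ 2) ^ 3 := by
  have hS := S3_pos hy0 hy1 b1 b2 b3 b4
  obtain ⟨w1, w2⟩ := Wle hy0 hy1 b1 b2 b3 b4
  obtain ⟨d1, d2⟩ := Dpos hy0 hy1 b1 b2 b3 b4
  have hA : 0 ≤ 63 - 30 * y + 63 * y ^ 2 := by nlinarith
  have hal' : (0 : ℝ) ≤ al := by exact_mod_cast hal
  have hbe' : (0 : ℝ) ≤ be := by exact_mod_cast hbe
  have hU : 0 ≤ ev U3 y := hS.le.trans b2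
  have hq : 0 < 2 * (1 + y ^ 2) := by positivity
  set D : ℝ := 63 * (1 + y ^ 2) * S3 - (63 + 186 * y ^ 2 + 63 * (y ^ 2) ^ 2) * S1 with hD
  have h1 : (al * (63 - 30 * y + 63 * y ^ 2) * (S3 - (1 - y) ^ 2 * S1) + be * y * S3
      - 2 * m * D) * (2 * (1 + y ^ 2)) ≤ ev (Br al be c0) y := by
    rw [ev_Br]
    have a1 : (2 * (1 + y ^ 2)) * (al * (63 - 30 * y + 63 * y ^ 2)) * (S3 - (1 - y) ^ 2 * S1) ≤
        (2 * (1 + y ^ 2)) * (al * (63 - 30 * y + 63 * y ^ 2)) * ev Wy y :=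
      mul_le_mul_of_nonneg_left w1 (mul_nonneg hq.le (mul_nonneg hal' hA))
    have a2 : (2 * (1 + y ^ 2)) * (be * y) * S3 ≤ (2 * (1 + y ^ 2)) * (be * y) * ev U3 y :=
      mul_le_mul_of_nonneg_left b2 (mul_nonneg hq.le (mul_nonneg hbe' hy0))
    have a3 : ev (Mp c0) y * ev Dl y ≤ ev (Mp c0) y * D := mul_le_mul_of_nonneg_left d1 hM
    have a4 : m * D * (2 * (1 + y ^ 2)) = ev (Mp c0) y * D := by rw [← hm]; ring
    nlinarith
  have h2 : S3 * ((al * (63 - 30 * y + 63 * y ^ 2) * (S3 - (1 - y) ^ 2 * S1) + be * y * S3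
      - 2 * m * D) * (2 * (1 + y ^ 2))) ≤ ev U3 y * ev (Br al be c0) y :=
    (mul_le_mul_of_nonneg_left h1 hS.le).trans (mul_le_mul_of_nonneg_right b2 hB)
  rw [ev_R2] at hR
  have h3 : (S3 * (al * (63 - 30 * y + 63 * y ^ 2) * (S3 - (1 - y) ^ 2 * S1) + be * y * S3
      - 2 * m * D)) * (2 * (1 + y ^ 2)) ≤ (32 * cc * y * (1 + y ^ 2) ^ 3) * (2 * (1 + y ^ 2)) := by
    have e1 : (32 * (cc : ℝ) * y * (1 + y ^ 2) ^ 3) * (2 * (1 + y ^ 2)) =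
        64 * cc * (y * (1 + y ^ 2) ^ 4) := by ring
    rw [e1]
    linarith
  exact le_of_mul_le_mul_right h3 hq

end

end Pool.Agent.W140.N4
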