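import Pool.Agent.W546.N4.Defs

/-!
Bounds of the two power series.
-/

set_option autoImplicit false

namespace Pool.Agent.W140.N4
open Pool.Agent.W546.N4

theorem bc_succ (p : ℝ) (k : ℕ) : bc p (k + 1) = bc p k * (p - k) / (k + 1) := rfl

theorem tail_step (p e c : ℝ) (hc : 0 < c) (he : e < 6 * c)
    (H : ∀ x : ℝ, 6 ≤ x → (p - x) ^ 2 / (c * x + c - e) + 1 ≤ x ^ 2 / (c * x - e)) (n : ℕ) :
    ∑ k ∈ Finset.range n, bc p (6 + k) ^ 2 + ((6 + n : ℝ) ^ 2 / (c * (6 + n) - e)) * bc p (6 + n) ^ 2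
      ≤ (36 / (c * 6 - e)) * bc p 6 ^ 2 := by
  induction n with
  | zero => simp; norm_num
  | succ n ih =>
    rw [Finset.sum_range_succ]
    refine le_trans ?_ ih
    have h1 : bc p (6 + (n + 1)) = bc p (6 + n) * (p - (6 + n : ℝ)) / ((6 + n : ℝ) + 1) := by
      rw [← Nat.add_assoc, bc_succ]
      push_cast
      ring
    have hx : (6 : ℝ) ≤ 6 + n := by linarith [n.cast_nonneg (α := ℝ)]
    have h2 := H (6 + n) hx
    rw [h1]
    push_cast
    set x : ℝ := 6 + (n : ℝ) with hxdef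
    have e1 : (6 : ℝ) + ((n : ℝ) + 1) = x + 1 := by rw [hxdef]; ring
    rw [e1]
    have hden : 0 < c * (x + 1) - e := by nlinarith
    have hx1 : x + 1 ≠ 0 := by linarith
    have e2 : (x + 1) ^ 2 / (c * (x + 1) - e) * (bc p (6 + n) * (p - x) / (x + 1)) ^ 2 =
        ((p - x) ^ 2 / (c * x + c - e)) * bc p (6 + n) ^ 2 := by
      have e3 : c * x + c - e = c * (x + 1) - e := by ring
      rw [e3]
      field_simp
    rw [e2]
    have h3 := mul_le_mul_of_nonneg_right h2 (sq_nonneg (bc p (6 + n)))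
    linarith

theorem bc3_6 : bc (3 / 2) 6 = 7 / 1024 := by
  simp only [bc]; norm_num

theorem bc1_6 : bc (1 / 2) 6 = -21 / 1024 := by
  simp only [bc]; norm_num

theorem tail3 (n : ℕ) : ∑ k ∈ Finset.range n, bc (3 / 2) (6 + k) ^ 2 ≤ 9 / 100000 := by
  have h := tail_step (3 / 2) 5 4 (by norm_num) (by norm_num) (fun x hx => by
    have h1 : 0 < 4 * x - 5 := by linarith
    have h2 : 0 < 4 * x + 4 - 5 := by linarith
    rw [div_add_one h2.ne', div_le_div_iff₀ h2 h1]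
    nlinarith) n
  rw [bc3_6] at h
  have h2 : 0 ≤ ((6 + n : ℝ) ^ 2 / (4 * (6 + n) - 5)) * bc (3 / 2) (6 + n) ^ 2 := by
    have : (0 : ℝ) < 4 * (6 + n) - 5 := by linarith [n.cast_nonneg (α := ℝ)]
    positivity
  norm_num at h
  linarith

theorem tail1 (n : ℕ) : ∑ k ∈ Finset.range n, bc (1 / 2) (6 + k) ^ 2 ≤ 145 / 100000 := by
  have h := tail_step (1 / 2) (3 / 2) 2 (by norm_num) (by norm_num) (fun x hx => by
    have h1 : 0 < 2 * x - 3 / 2 := by linarith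
    have h2 : 0 < 2 * x + 2 - 3 / 2 := by linarith
    rw [div_add_one h2.ne', div_le_div_iff₀ h2 h1]
    nlinarith) n
  rw [bc1_6] at h
  have h2 : 0 ≤ ((6 + n : ℝ) ^ 2 / (2 * (6 + n) - 3 / 2)) * bc (1 / 2) (6 + n) ^ 2 := by
    have : (0 : ℝ) < 2 * (6 + n) - 3 / 2 := by linarith [n.cast_nonneg (α := ℝ)]
    positivity
  norm_num at h
  linarith

theorem series_bounds {p z S T : ℝ} (hz0 : 0 ≤ z) (hz1 : z ≤ 1)
    (h : HasSum (fun k => bc p k ^ 2 * z ^ k) S)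
    (hT : ∀ n : ℕ, ∑ k ∈ Finset.range n, bc p (6 + k) ^ 2 ≤ T) :
    ∑ k ∈ Finset.range 7, bc p k ^ 2 * z ^ k ≤ S ∧
      S ≤ ∑ k ∈ Finset.range 6, bc p k ^ 2 * z ^ k + T * z ^ 6 := by
  have hnn : ∀ k, 0 ≤ bc p k ^ 2 * z ^ k := fun k => by positivity
  refine ⟨sum_le_hasSum _ (fun k _ => hnn k) h, ?_⟩
  have hlim := h.tendsto_sum_nat
  refine le_of_tendsto (hlim.comp (Filter.tendsto_add_atTop_nat 6)) ?_
  filter_upwards with n
  show ∑ k ∈ Finset.range (n + 6), bc p k ^ 2 * z ^ k ≤ _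
  rw [add_comm n 6, Finset.sum_range_add]
  refine add_le_add_right ?_ _
  calc ∑ k ∈ Finset.range n, bc p (6 + k) ^ 2 * z ^ (6 + k)
      ≤ ∑ k ∈ Finset.range n, bc p (6 + k) ^ 2 * z ^ 6 := by
        apply Finset.sum_le_sum
        intro k _
        apply mul_le_mul_of_nonneg_left _ (sq_nonneg _)
        rw [pow_add]
        calc z ^ 6 * z ^ k ≤ z ^ 6 * 1 :=
              mul_le_mul_of_nonneg_left (pow_le_one₀ hz0 hz1) (by positivity)
          _ = z ^ 6 := mul_one _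
    _ = (∑ k ∈ Finset.range n, bc p (6 + k) ^ 2) * z ^ 6 := by rw [Finset.sum_mul]
    _ ≤ T * z ^ 6 := mul_le_mul_of_nonneg_right (hT n) (by positivity)

/-- bounds of `S3`, `S1` -/
theorem bounds3 {z S : ℝ} (hz0 : 0 ≤ z) (hz1 : z ≤ 1)
    (h : HasSum (fun k => bc (3 / 2) k ^ 2 * z ^ k) S) :
    1 + 9 / 4 * z + 9 / 64 * z ^ 2 + 1 / 256 * z ^ 3 + 9 / 16384 * z ^ 4 + 9 / 65536 * z ^ 5
      + 49 / 1048576 * z ^ 6 ≤ S ∧
    S ≤ 1 + 9 / 4 * z + 9 / 64 * z ^ 2 + 1 / 256 * z ^ 3 + 9 / 16384 * z ^ 4 + 9 / 65536 * z ^ 5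
      + 9 / 100000 * z ^ 6 := by
  obtain ⟨h1, h2⟩ := series_bounds hz0 hz1 h tail3
  simp only [Finset.sum_range_succ, Finset.sum_range_zero, bc] at h1 h2
  norm_num at h1 h2
  constructor
  · refine le_trans (le_of_eq ?_) h1
    ring
  · refine le_trans h2 (le_of_eq ?_)
    ring

theorem bounds1 {z S : ℝ} (hz0 : 0 ≤ z) (hz1 : z ≤ 1)
    (h : HasSum (fun k => bc (1 / 2) k ^ 2 * z ^ k) S) :
    1 + 1 / 4 * z + 1 / 64 * z ^ 2 + 1 / 256 * z ^ 3 + 25 / 16384 * z ^ 4 + 49 / 65536 * z ^ 5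
      + 441 / 1048576 * z ^ 6 ≤ S ∧
    S ≤ 1 + 1 / 4 * z + 1 / 64 * z ^ 2 + 1 / 256 * z ^ 3 + 25 / 16384 * z ^ 4 + 49 / 65536 * z ^ 5
      + 145 / 100000 * z ^ 6 := by
  obtain ⟨h1, h2⟩ := series_bounds hz0 hz1 h tail1
  simp only [Finset.sum_range_succ, Finset.sum_range_zero, bc] at h1 h2
  norm_num at h1 h2
  constructor
  · refine le_trans (le_of_eq ?_) h1
    ring
  · refine le_trans h2 (le_of_eq ?_)
    ring

end Pool.Agent.W140.N4
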