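import Pool.Agent.W797.ST.REC
import Pool.Agent.W140.N4.Tail
import Pool.Agent.W140.N4.Cert

/-!
N4-NUM: the numerical inequalities of the far region, `N = 4`.
-/

set_option autoImplicit false

namespace Pool.Agent.W140.N4
open Pool.Agent.W546.N4 Pool.Agent.W546.ST

theorem Kn3 : (4999 : ℝ) / 5000 * (3 * Kn 3) = (cc : ℝ) := by
  unfold Kn cc
  norm_num [Nat.doubleFactorial, Nat.factorial]

/-- `l = 1/2` -/
theorem half_case : X1 3 (1 / 2) = 0 ∧ X0 3 (1 / 2) = 63 / 2 * Eq 3 0 (1 / 2) ∧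
    Eq 3 0 (1 / 2) ^ 2 = 1 / 8 := by
  set e : ℝ := Real.sqrt ((1 / 2) ^ 3) with he
  have hh2 : ∀ a, hh (1 / 2) a = 1 / 2 := by
    intro a; unfold hh; ring
  have q0 : ∀ a, hq 3 0 (1 / 2) a = e := by
    intro a; unfold hq; rw [hh2, pow_zero, div_one]
  have q1 : ∀ a, hq 3 1 (1 / 2) a = 2 * e := by
    intro a; unfold hq; rw [hh2, pow_one]; ring
  have q2 : ∀ a, hq 3 2 (1 / 2) a = 4 * e := by
    intro a; unfold hq; rw [hh2]; ring
  have hb : ∀ a, br 3 (1 / 2) a = 45 * e := by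
    intro a
    unfold br
    rw [q0, q1, q2]
    push_cast
    ring
  have hE : Eq 3 0 (1 / 2) = e := by
    unfold Pool.Agent.W546.ST.Eq
    have : hq 3 0 (1 / 2) = fun _ => e := by ext a; exact q0 a
    rw [this, Pool.Agent.W797.ST.mn_const]
  have c1 : Continuous (fun a : ℝ => (45 * e) * Real.sin a ^ 2) := by fun_prop
  have c2 : Continuous (fun a : ℝ => (-(90 * e)) * Real.sin a ^ 2) := by fun_prop
  refine ⟨?_, ?_, ?_⟩
  · unfold X1
    have : (fun a => (1 - 2 * Real.sin a ^ 2) * br 3 (1 / 2) a) =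
        fun a => 45 * e + (-(90 * e)) * Real.sin a ^ 2 := by
      ext a; rw [hb]; ring
    rw [this, Pool.Agent.W797.ST.mn_add continuous_const c2, Pool.Agent.W797.ST.mn_const,
      Pool.Agent.W797.ST.mn_mul, Pool.Agent.W797.ST.mn_sin]
    ring
  · unfold X0
    have : (fun a => (2 * ((3 : ℕ) : ℝ) + 3) * hq 3 0 (1 / 2) a + Real.sin a ^ 2 * br 3 (1 / 2) a) =
        fun a => 9 * e + (45 * e) * Real.sin a ^ 2 := by
      ext a; rw [hb, q0]; push_cast; ring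
    rw [this, Pool.Agent.W797.ST.mn_add continuous_const c1, Pool.Agent.W797.ST.mn_const,
      Pool.Agent.W797.ST.mn_mul, Pool.Agent.W797.ST.mn_sin, hE]
    ring
  · rw [hE, he, Real.sq_sqrt (by norm_num)]; norm_num

theorem exists_y {l : ℝ} (h0 : 0 < l) (h1 : l ≤ 1 / 2) :
    ∃ y : ℝ, 0 ≤ y ∧ y < 1 ∧ l = (1 - y) ^ 2 / (2 * (1 + y ^ 2)) := by
  have hc : ContinuousOn (fun y : ℝ => (1 - y) ^ 2 / (2 * (1 + y ^ 2))) (Set.Icc 0 1) := by
    apply Continuous.continuousOn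
    apply Continuous.div (by fun_prop) (by fun_prop)
    intro y
    positivity
  have h := intermediate_value_Icc' (zero_le_one' ℝ) hc
  have hl : l ∈ Set.Icc ((1 - (1 : ℝ)) ^ 2 / (2 * (1 + 1 ^ 2))) ((1 - (0 : ℝ)) ^ 2 / (2 * (1 + 0 ^ 2))) := by
    constructor
    · norm_num; exact h0.le
    · norm_num; linarith
  obtain ⟨y, hy, hyl⟩ := h hl
  refine ⟨y, hy.1, lt_of_le_of_ne hy.2 ?_, hyl.symm⟩
  rintro rfl
  have hyl' : (1 - (1 : ℝ)) ^ 2 / (2 * (1 + 1 ^ 2)) = l := hyl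
  norm_num at hyl'
  linarith

theorem NUM (h : St4_SER) : St4_NUM := by
  intro l hl hl2
  have hl0 : 0 < l := by linarith
  rw [Kn3]
  have hY0 : Y0 3 l = 24 * Eq 3 0 l := by
    unfold Y0; push_cast; ring
  rw [hY0]
  obtain ⟨y, hy0, hy1, hly⟩ := exists_y hl0 hl2
  rcases hy0.eq_or_lt with rfl | hypos
  · -- `l = 1/2`
    have hl' : l = 1 / 2 := by rw [hly]; norm_num
    subst hl'
    obtain ⟨g1, g2, g3⟩ := half_case
    have hcc : (4 : ℝ) ≤ cc := by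
      have : (4 : ℚ) ≤ cc := by unfold cc; norm_num
      exact_mod_cast this
    refine ⟨g1.le, ?_, ?_⟩
    · rw [g1, g2]; nlinarith
    · rw [g1, g2]; nlinarith
  -- `y > 0`
  obtain ⟨s3, s1⟩ := h y hy0 hy1
  rw [← hly] at s3 s1
  set E3 : ℝ := Eq 3 0 l with hE3
  set E1 : ℝ := Eq 3 1 l with hE1
  set q : ℝ := 2 * (1 + y ^ 2) with hq
  have hqpos : 0 < q := by positivity
  set S3 : ℝ := E3 * Real.sqrt (q ^ 3) with hS3
  set S1 : ℝ := E1 * Real.sqrt q with hS1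
  have hz0 : 0 ≤ y ^ 2 := by positivity
  have hz1 : y ^ 2 ≤ 1 := by nlinarith
  obtain ⟨b1, b2⟩ := bounds3 hz0 hz1 s3
  obtain ⟨b3, b4⟩ := bounds1 hz0 hz1 s1
  rw [← evL3] at b1
  rw [← evU3] at b2
  rw [← evL1] at b3
  rw [← evU1] at b4
  have hS := S3_pos hy0 hy1.le b1 b2 b3 b4
  obtain ⟨d1, d2⟩ := Dpos hy0 hy1.le b1 b2 b3 b4
  set D : ℝ := 63 * (1 + y ^ 2) * S3 - (63 + 186 * y ^ 2 + 63 * (y ^ 2) ^ 2) * S1 with hD
  have hD0 : 0 ≤ D := d2.trans d1
  have hsq3 : 0 < Real.sqrt (q ^ 3) := Real.sqrt_pos.mpr (by positivity)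
  have hE3pos : 0 < E3 := by
    by_contra hneg
    push Not at hneg
    have : S3 ≤ 0 := mul_nonpos_of_nonpos_of_nonneg hneg hsq3.le
    linarith
  have r1 : S3 ^ 2 = E3 ^ 2 * q ^ 3 := by
    rw [hS3, mul_pow, Real.sq_sqrt (by positivity)]
  have r2 : S1 * S3 = E1 * E3 * q ^ 2 := by
    have e1 : Real.sqrt q * Real.sqrt (q ^ 3) = q ^ 2 := by
      rw [← Real.sqrt_mul hqpos.le, show q * q ^ 3 = (q ^ 2) ^ 2 by ring,
        Real.sqrt_sq (by positivity)]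
    calc S1 * S3 = E1 * E3 * (Real.sqrt q * Real.sqrt (q ^ 3)) := by rw [hS1, hS3]; ring
      _ = E1 * E3 * q ^ 2 := by rw [e1]
  have hlq : l * q = (1 - y) ^ 2 := by
    rw [hly]; field_simp
  have h2lq : (1 - 2 * l) * q = 4 * y := by
    have : (1 - 2 * l) * q = q - 2 * (l * q) := by ring
    rw [this, hlq, hq]; ring
  have f0 := Pool.Agent.W797.ST.F0 3 (le_refl 3) l hl0 hl2
  have f1 := Pool.Agent.W797.ST.F1 3 (le_refl 3) l hl0 hl2
  rw [← hE3, ← hE1] at f0 f1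
  push_cast at f0 f1
  set x0 : ℝ := X0 3 l with hx0
  set x1 : ℝ := X1 3 l with hx1
  have f0' : (1 - 2 * l) * x0 = (24 + 15 * l) * (E3 - l * E1) := by rw [f0]; ring
  have f1' : (1 - 2 * l) * x1 = (39 - 30 * (l * (1 - l))) * E1 - 63 * E3 := by rw [f1]; ring
  have k0 : x0 * E3 * (4 * y * q ^ 3) =
      (63 - 30 * y + 63 * y ^ 2) * (S3 * (S3 - (1 - y) ^ 2 * S1)) := by
    calc x0 * E3 * (4 * y * q ^ 3) = ((1 - 2 * l) * x0) * E3 * q ^ 4 := by rw [← h2lq]; ring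
      _ = ((24 * q + 15 * (l * q))) * (E3 ^ 2 * q ^ 3 - (l * q) * (E1 * E3 * q ^ 2)) := by
          rw [f0']; ring
      _ = (24 * q + 15 * (1 - y) ^ 2) * (S3 ^ 2 - (1 - y) ^ 2 * (S1 * S3)) := by
          rw [hlq, ← r1, ← r2]
      _ = _ := by rw [hq]; ring
  have k1 : x1 * E3 * (4 * y * q ^ 3) = -(2 * (S3 * D)) := by
    have e1 : (l * q) * ((1 - l) * q) = (1 - y ^ 2) ^ 2 := by
      have : (1 - l) * q = (1 + y) ^ 2 := by
        have : (1 - l) * q = q - l * q := by ring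
        rw [this, hlq, hq]; ring
      rw [this, hlq]; ring
    calc x1 * E3 * (4 * y * q ^ 3) = ((1 - 2 * l) * x1) * E3 * q ^ 4 := by rw [← h2lq]; ring
      _ = (39 * q ^ 2 - 30 * ((l * q) * ((1 - l) * q))) * (E1 * E3 * q ^ 2) -
          63 * q * (E3 ^ 2 * q ^ 3) := by
          rw [f1']; ring
      _ = (39 * q ^ 2 - 30 * (1 - y ^ 2) ^ 2) * (S1 * S3) - 63 * q * S3 ^ 2 := by
          rw [e1, ← r1, ← r2]
      _ = _ := by rw [hq, hD]; ring
  have k2 : E3 * E3 * (4 * y * q ^ 3) = 4 * y * S3 ^ 2 := by rw [r1]; ring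
  have hden : 0 < 4 * y * q ^ 3 := by positivity
  have hx1neg : x1 ≤ 0 := by
    by_contra hneg
    push Not at hneg
    have h1 : 0 < x1 * E3 * (4 * y * q ^ 3) := by positivity
    have h2 : 0 ≤ S3 * D := mul_nonneg hS.le hD0
    linarith
  have hq3 : q ^ 3 = 8 * (1 + y ^ 2) ^ 3 := by rw [hq]; ring
  -- the general inequality
  have gen : ∀ (al be c0 : ℚ) (y1 : ℚ), 0 ≤ al → 0 ≤ be →
      (y ≤ (y1 : ℝ) → 0 ≤ ev (R1 al be) y) →
      ((y1 : ℝ) ≤ y → 0 ≤ ev (R2 al be c0) y ∧ 0 ≤ ev (Br al be c0) y ∧ 0 ≤ ev (Mp c0) y) →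
      (al * x0 + be / 4 * E3 + max 0 (c0 - 3 * l) * x1) * E3 ≤ cc := by
    intro al be c0 y1 hal hbe H1 H2
    have hal' : (0 : ℝ) ≤ al := by exact_mod_cast hal
    have hbe' : (0 : ℝ) ≤ be := by exact_mod_cast hbe
    refine le_of_mul_le_mul_right ?_ hden
    have hid : (al * x0 + be / 4 * E3 + max 0 (c0 - 3 * l) * x1) * E3 * (4 * y * q ^ 3) =
        al * ((63 - 30 * y + 63 * y ^ 2) * (S3 * (S3 - (1 - y) ^ 2 * S1))) + be * y * S3 ^ 2
          - 2 * max 0 ((c0 : ℝ) - 3 * l) * (S3 * D) := by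
      calc _ = al * (x0 * E3 * (4 * y * q ^ 3)) + be / 4 * (E3 * E3 * (4 * y * q ^ 3)) +
            max 0 ((c0 : ℝ) - 3 * l) * (x1 * E3 * (4 * y * q ^ 3)) := by ring
        _ = _ := by rw [k0, k1, k2]; ring
    rw [hid]
    have hrhs : (cc : ℝ) * (4 * y * q ^ 3) = 32 * cc * y * (1 + y ^ 2) ^ 3 := by
      rw [hq3]; ring
    rw [hrhs]
    have hmax : 0 ≤ max 0 ((c0 : ℝ) - 3 * l) := le_max_left _ _
    rcases le_total y (y1 : ℝ) with hy | hy
    · have h1 := region1 hy0 hy1.le b1 b2 b3 b4 al be hal hbe (H1 hy)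
      have h2 : 0 ≤ max 0 ((c0 : ℝ) - 3 * l) * (S3 * D) :=
        mul_nonneg hmax (mul_nonneg hS.le hD0)
      have e : S3 * (al * (63 - 30 * y + 63 * y ^ 2) * (S3 - (1 - y) ^ 2 * S1) + be * y * S3) =
        al * ((63 - 30 * y + 63 * y ^ 2) * (S3 * (S3 - (1 - y) ^ 2 * S1))) + be * y * S3 ^ 2 := by
        ring
      rw [e] at h1
      linarith
    · obtain ⟨t1, t2, t3⟩ := H2 hy
      have hm : ((c0 : ℝ) - 3 * l) * (2 * (1 + y ^ 2)) = ev (Mp c0) y := by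
        rw [ev_Mp, ← hlq, hq]; ring
      have hmpos : 0 ≤ (c0 : ℝ) - 3 * l := by
        by_contra hneg
        push Not at hneg
        have : ((c0 : ℝ) - 3 * l) * (2 * (1 + y ^ 2)) < 0 := mul_neg_of_neg_of_pos hneg (by positivity)
        linarith
      rw [max_eq_right hmpos]
      have h1 := region2 hy0 hy1.le b1 b2 b3 b4 al be c0 hal hbe t1 t2 t3 _ hm
      rw [← hD] at h1
      have e : S3 * (al * (63 - 30 * y + 63 * y ^ 2) * (S3 - (1 - y) ^ 2 * S1) + be * y * S3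
          - 2 * ((c0 : ℝ) - 3 * l) * D) =
        al * ((63 - 30 * y + 63 * y ^ 2) * (S3 * (S3 - (1 - y) ^ 2 * S1))) + be * y * S3 ^ 2
          - 2 * ((c0 : ℝ) - 3 * l) * (S3 * D) := by
        ring
      rw [e] at h1
      exact h1
  refine ⟨hx1neg, ?_, ?_⟩
  · have g := gen 1 0 (723 / 10000) (73 / 100) (by norm_num) (by norm_num)
      (fun hy => walk_pos [365/1000] 0 (73/100) cb1 y (by push_cast; exact hy0) hy)
      (fun hy => ⟨walk_pos [] (73/100) 1 cb2 y hy (by push_cast; exact hy1.le),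
        walk_pos [] (73/100) 1 cb4 y hy (by push_cast; exact hy1.le),
        walk_pos [] (73/100) 1 cb3 y hy (by push_cast; exact hy1.le)⟩)
    push_cast at g
    refine le_trans (le_of_eq ?_) g
    ring
  · have g := gen (71 / 100) (2784 / 100) (412 / 10000) (79 / 100) (by norm_num) (by norm_num)
      (fun hy => walk_pos [39/100, 59/100] 0 (79/100) cc1 y (by push_cast; exact hy0) hy)
      (fun hy => ⟨walk_pos [89/100] (79/100) 1 cc2 y hy (by push_cast; exact hy1.le),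
        walk_pos [] (79/100) 1 cc4 y hy (by push_cast; exact hy1.le),
        walk_pos [] (79/100) 1 cc3 y hy (by push_cast; exact hy1.le)⟩)
    push_cast at g
    refine le_trans (le_of_eq ?_) g
    ring

end Pool.Agent.W140.N4
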