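import Mathlib

/-!
Certified positivity of rational polynomials on intervals (lists of rational coefficients).
-/

set_option autoImplicit false

namespace Pool.Agent.W140.N4

/-- value of the polynomial with the coefficients `l` -/
noncomputable def ev (l : List ℚ) (x : ℝ) : ℝ := l.foldr (fun c acc => (c : ℝ) + x * acc) 0

def addL : List ℚ → List ℚ → List ℚ
  | [], m => m
  | a :: l, [] => a :: l
  | a :: l, b :: m => (a + b) :: addL l m

def scL (c : ℚ) (l : List ℚ) : List ℚ := l.map (c * ·)

def mulL : List ℚ → List ℚ → List ℚ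
  | [], _ => []
  | a :: l, m => addL (scL a m) (0 :: mulL l m)

/-- composition with `a + w t` -/
def cmpL (a w : ℚ) : List ℚ → List ℚ
  | [] => []
  | c :: l => addL [c] (mulL [a, w] (cmpL a w l))

/-- the partial sums are nonnegative -/
def ps : ℚ → List ℚ → Bool
  | _, [] => true
  | s, c :: l => decide (0 ≤ s + c) && ps (s + c) l

/-- check on `[a, b]` -/
def okc (p : List ℚ) (a b : ℚ) : Bool := decide (a < b) && ps 0 (cmpL a (b - a) p)

@[simp] theorem ev_nil (x : ℝ) : ev [] x = 0 := rfl
@[simp] theorem ev_cons (c : ℚ) (l : List ℚ) (x : ℝ) : ev (c :: l) x = (c : ℝ) + x * ev l x := rfl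

theorem ev_addL (l m : List ℚ) (x : ℝ) : ev (addL l m) x = ev l x + ev m x := by
  induction l generalizing m with
  | nil => simp [addL]
  | cons a l ih =>
    cases m with
    | nil => simp [addL]
    | cons b m =>
      rw [addL, ev_cons, ev_cons, ev_cons, ih]
      push_cast
      ring

theorem ev_scL (c : ℚ) (l : List ℚ) (x : ℝ) : ev (scL c l) x = (c : ℝ) * ev l x := by
  induction l with
  | nil => simp [scL]
  | cons a l ih =>
    have h : scL c (a :: l) = (c * a) :: scL c l := rfl
    rw [h, ev_cons, ev_cons, ih]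
    push_cast
    ring

theorem ev_mulL (l m : List ℚ) (x : ℝ) : ev (mulL l m) x = ev l x * ev m x := by
  induction l with
  | nil => simp [mulL]
  | cons a l ih =>
    rw [mulL, ev_addL, ev_scL, ev_cons, ev_cons, ih]
    push_cast
    ring

theorem ev_cmpL (a w : ℚ) (l : List ℚ) (t : ℝ) : ev (cmpL a w l) t = ev l ((a : ℝ) + w * t) := by
  induction l with
  | nil => simp [cmpL]
  | cons c l ih =>
    rw [cmpL, ev_addL, ev_mulL, ih]
    simp only [ev_cons, ev_nil]
    ring

theorem ps_ok (l : List ℚ) : ∀ s : ℚ, ps s l = true → 0 ≤ s → ∀ t : ℝ, 0 ≤ t → t ≤ 1 →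
    0 ≤ (s : ℝ) + ev l t := by
  induction l with
  | nil =>
    intro s _ hs t _ _
    simpa using hs
  | cons c l ih =>
    intro s h hs t h0 h1
    rw [ps, Bool.and_eq_true, decide_eq_true_eq] at h
    have h2 := ih (s + c) h.2 h.1 t h0 h1
    have h3 : (0 : ℝ) ≤ ((s + c : ℚ) : ℝ) := by exact_mod_cast h.1
    rw [ev_cons]
    push_cast at h2 h3
    have h4 : 0 ≤ t * ((s : ℝ) + c + ev l t) := mul_nonneg h0 h2
    have h5 : 0 ≤ (1 - t) * ((s : ℝ) + c) := mul_nonneg (by linarith) h3
    nlinarith

theorem okc_pos {p : List ℚ} {a b : ℚ} (h : okc p a b = true) (x : ℝ) (ha : (a : ℝ) ≤ x)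
    (hb : x ≤ (b : ℝ)) : 0 ≤ ev p x := by
  rw [okc, Bool.and_eq_true, decide_eq_true_eq] at h
  have hab : (0 : ℝ) < (b : ℝ) - a := by
    have : (a : ℝ) < b := by exact_mod_cast h.1
    linarith
  have h1 := ps_ok _ 0 h.2 (le_refl _) ((x - a) / ((b : ℝ) - a)) (div_nonneg (by linarith) hab.le)
    (by rw [div_le_one hab]; linarith)
  rw [ev_cmpL] at h1
  have e : (a : ℝ) + ((b - a : ℚ) : ℝ) * ((x - a) / ((b : ℝ) - a)) = x := by
    push_cast
    field_simp
    ring
  rw [e] at h1
  simpa using h1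

/-- check on the intervals between consecutive points -/
def walk (p : List ℚ) : ℚ → List ℚ → Bool
  | _, [] => true
  | a, b :: l => okc p a b && walk p b l

theorem walk_pos {p : List ℚ} (bs : List ℚ) : ∀ a c : ℚ, walk p a (bs ++ [c]) = true →
    ∀ x : ℝ, (a : ℝ) ≤ x → x ≤ (c : ℝ) → 0 ≤ ev p x := by
  induction bs with
  | nil =>
    intro a c h x ha hc
    rw [List.nil_append, walk, Bool.and_eq_true] at h
    exact okc_pos h.1 x ha hc
  | cons b bs ih =>
    intro a c h x ha hc
    rw [List.cons_append, walk, Bool.and_eq_true] at h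
    rcases le_total x (b : ℝ) with hb | hb
    · exact okc_pos h.1 x ha hb
    · exact ih b c h.2 x hb hc

end Pool.Agent.W140.N4
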